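import Pool.Agent.R518.B.Sys

set_option autoImplicit false

/-!
# The `N` for which a given `k` is admissible: the law of the spacings
-/

namespace Pool.Agent.Results.MP_e94e4b_nt.FixedK

open Finset Filter

/-- `p` divides one of the two numbers `A_N(k) = N ^ 2 + k + 1` and `B_N(k) = (N + 1) ^ 2 - k`. -/
def Divides (k p N : ℕ) : Prop := (p : ℤ) ∣ (N : ℤ) ^ 2 + (k : ℤ) + 1 ∨ (p : ℤ) ∣ ((N : ℤ) + 1) ^ 2 - (k : ℤ)

/-- Neither `N ^ 2 + k + 1` nor `(N + 1) ^ 2 - k` has a prime factor `≤ y`. -/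
def Rough (k y N : ℕ) : Prop := ∀ p : ℕ, p.Prime → p ≤ y → ¬ Divides k p N

open Classical in
/-- The density of these `N`: the product of `1 - ν(p) / p` over the primes `p ≤ y`, where `ν(p)` is the number
of the residues `N` modulo `p` for which `p` divides one of the two numbers. -/
noncomputable def V (k y : ℕ) : ℝ := ∏ p ∈ (Finset.range (y + 1)).filter Nat.Prime,
    (1 - (((Finset.range p).filter (fun N : ℕ => Divides k p N)).card : ℝ) / p)

/-- The density of the integers without prime factor `≤ y`. -/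
noncomputable def V1 (y : ℕ) : ℝ := ∏ p ∈ (Finset.range (y + 1)).filter Nat.Prime, (1 - 1 / (p : ℝ))

open Classical in
/-- The number of the `N` in `(u, u + Y]` with `Rough k y N` for which fewer than `l` of the `T` integers
before `N` have this property. -/
noncomputable def D (k y l T u Y : ℕ) : ℕ :=
  ((Ioc u (u + Y)).filter (fun N => Rough k y N ∧
    ((Ico (N - T) N).filter (fun N' => Rough k y N')).card < l)).card

open Classical in
/-- **The law of the spacings.** For all `A`, `θ > 0`, `k0`, `x0` and `ε > 0` there is `r0` such that for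
`r ≥ r0`, every `B` and all large `X` the following holds for ALL `1 ≤ k ≤ X ^ A` which are not squares,
are not congruent to `1` modulo `3` (else one of the two numbers is always divisible by `3`) and satisfy
`V ≤ B V1`, and for EVERY interval `(u, u + Y]`, `Y ≥ X ^ θ`: among the `N` in it for which neither
`N ^ 2 + k + 1` nor `(N + 1) ^ 2 - k` has a prime factor `≤ X ^ (1 / r)`, the distances to the `l`-th
preceding one have, in units `1 / V` and up to `ε`, the distribution which belongs to a Poisson process. -/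
theorem result (A : ℕ) (θ : ℝ) (hθ : 0 < θ) (k0 : ℕ) (x0 ε : ℝ) (hε : 0 < ε) :
    ∃ r0 : ℕ, ∀ r : ℕ, r0 ≤ r → ∀ B : ℝ, ∀ᶠ X : ℕ in atTop, ∀ k : ℕ, 1 ≤ k → k ≤ X ^ A →
      k % 3 ≠ 1 → ¬ IsSquare k →
      V k ⌊(X : ℝ) ^ (1 / (r : ℝ))⌋₊ ≤ B * V1 ⌊(X : ℝ) ^ (1 / (r : ℝ))⌋₊ →
      ∀ u Y : ℕ, (X : ℝ) ^ θ ≤ Y → ∀ l T : ℕ,
        (l ≤ k0 ∨ T * V k ⌊(X : ℝ) ^ (1 / (r : ℝ))⌋₊ ≤ x0) →
        |(D k ⌊(X : ℝ) ^ (1 / (r : ℝ))⌋₊ l T u Y : ℝ) -
          Y * V k ⌊(X : ℝ) ^ (1 / (r : ℝ))⌋₊ *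
            ∑ j ∈ range l, Real.exp (-(T * V k ⌊(X : ℝ) ^ (1 / (r : ℝ))⌋₊)) *
              (T * V k ⌊(X : ℝ) ^ (1 / (r : ℝ))⌋₊) ^ j / j.factorial| ≤
          ε * (Y * V k ⌊(X : ℝ) ^ (1 / (r : ℝ))⌋₊) := by
  obtain ⟨r0, h0⟩ := Pool.Agent.R518.G.gapG 2 2 (A + 1) 1 θ one_pos hθ k0 x0 ε hε
  refine ⟨r0, fun r hr B => ?_⟩
  filter_upwards [h0 r hr B, eventually_ge_atTop 2] with X hX hX2
  intro k hk hkX hk3 hks hV u Y hY l T hT
  have hX2' : (2 : ℤ) ≤ X := by exact_mod_cast hX2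
  have hk' : (1 : ℤ) ≤ k := by exact_mod_cast hk
  have hkX' : (k : ℤ) ≤ (X : ℤ) ^ A := by exact_mod_cast hkX
  have hXA : (1 : ℤ) ≤ (X : ℤ) ^ A := one_le_pow₀ (by omega)
  have e : (X : ℤ) ^ (A + 1) = X * (X : ℤ) ^ A := by ring
  have hus := Pool.Agent.R518.G.sq_us (k : ℤ) ((X : ℤ) ^ (A + 1)) (by omega)
    (by rw [e]; nlinarith) (by rw [e]; nlinarith) (by omega) (by
      intro h
      apply hks
      obtain ⟨s, hs⟩ := h
      refine ⟨s.natAbs, ?_⟩
      have := congrArg Int.natAbs hs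
      rwa [Int.natAbs_mul, Int.natAbs_natCast] at this) ((X : ℝ) ^ (1 : ℝ))
  exact hX _ (Divides k) hus (Pool.Agent.R518.G.sq_rep _) _ rfl hV u Y hY l T hT

end Pool.Agent.Results.MP_e94e4b_nt.FixedK
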