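import Mathlib
import Pool.Agent.R463.Pair
import Pool.Agent.Y879.GL.Pattern

set_option autoImplicit false

/-!
# The gap laws for pairs of almost primes between consecutive squares with a fixed sum

For EVERY large `N`: the integers `k` for which neither `N ^ 2 + k + 1` nor `(N + 1) ^ 2 - k` has a prime
factor `≤ N ^ (1 / r)` (among them all `2 ≤ k ≤ 2 N` for which both are prime) have the expected number, and
follow each other as in a Poisson process, in the whole range `2 ≤ k ≤ 2 N` and in all its parts of length at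
least `N ^ θ`.
-/

namespace Pool.Agent.Results.MP_e94e4b_nt.GapLaws

open Finset Filter
open Pool.Agent.R463.PS

/-- neither `N ^ 2 + k + 1` nor `(N + 1) ^ 2 - k` has a prime factor `p ≤ N ^ (1 / r)` -/
def Good (N r k : ℕ) : Prop :=
  ∀ p : ℕ, p.Prime → (p : ℝ) ≤ (N : ℝ) ^ (1 / (r : ℝ)) →
    ¬ (p : ℤ) ∣ (N : ℤ) ^ 2 + k + 1 ∧ ¬ (p : ℤ) ∣ ((N : ℤ) + 1) ^ 2 - k

/-- `1` for the prime factors of the sum `2 N ^ 2 + 2 N + 2`, `2` for the other primes -/
def nu (N p : ℕ) : ℕ := if p ∣ 2 * N ^ 2 + 2 * N + 2 then 1 else 2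

/-- the density: the product of `1 - nu(p) / p` over the primes `p ≤ N ^ (1 / r)` -/
noncomputable def V (N r : ℕ) : ℝ :=
  ∏ p ∈ (Icc 1 ⌊(N : ℝ) ^ (1 / (r : ℝ))⌋₊).filter Nat.Prime, (1 - (nu N p : ℝ) / p)

open Classical in
/-- the number of the good `k` in `(Z, Z + Y]` for which fewer than `l` of the integers in `[k - T, k)`
are good -/
noncomputable def Far (N r l T Z Y : ℕ) : ℕ :=
  ((Ioc Z (Z + Y)).filter (fun k => Good N r k ∧
    ((Ico (k - T) k).filter (fun n => Good N r n)).card < l)).card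

/-- the pair as a system -/
noncomputable abbrev sy (N : ℕ) := Pool.Agent.Y879.GL.pf (-1) ((2 * N ^ 2 + 2 * N + 2 : ℕ) : ℤ) 1 (N ^ 2 + 1)

lemma good_iff (N r n : ℕ) : Good N r n ↔ Sifted (sy N) N r n := by
  unfold sy
  rw [pair_sift]
  unfold Good
  have e1 : ((1 : ℕ) : ℤ) * n + ((N ^ 2 + 1 : ℕ) : ℤ) = (N : ℤ) ^ 2 + n + 1 := by
    push_cast
    ring
  have e2 : (-1 : ℤ) * (((1 : ℕ) : ℤ) * n + ((N ^ 2 + 1 : ℕ) : ℤ)) + ((2 * N ^ 2 + 2 * N + 2 : ℕ) : ℤ) =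
      ((N : ℤ) + 1) ^ 2 - n := by
    push_cast
    ring
  rw [e2, e1]

lemma V_eq (N r : ℕ) : V N r = Pool.Agent.R463.PS.V (sy N) N r := by
  unfold V Pool.Agent.R463.PS.V
  apply prod_congr rfl
  intro p hp
  have hpp := (mem_filter.1 hp).2
  unfold sy
  rw [pair_om (-1) _ (by norm_num) 1 (N ^ 2 + 1) p hpp (Nat.coprime_one_left _)
    (by rw [Nat.cast_one]; exact isCoprime_one_left)]
  unfold nu
  simp only [Int.natCast_dvd_natCast]
  rw [if_neg (fun h => hpp.one_lt.ne' (Nat.dvd_one.1 h))]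

lemma Far_eq (N r l T Z Y : ℕ) :
    Far N r l T Z Y = Pool.Agent.R463.PS.Far (sy N) N r l T Z Y := by
  classical
  unfold Far Pool.Agent.R463.PS.Far
  congr 1
  apply filter_congr
  intro b _
  rw [good_iff]
  have : (Ico (b - T) b).filter (fun n => Good N r n) =
      (Ico (b - T) b).filter (fun n => Sifted (sy N) N r n) :=
    filter_congr fun n _ => good_iff N r n
  rw [this]

/-- a prime `q > N` has no prime factor `≤ N ^ (1 / r)` -/
lemma prime_ok {N r q p : ℕ} (hN : 1 ≤ N) (hr : 1 ≤ r) (hq : q.Prime) (hNq : N < q) (hp : p.Prime)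
    (hpN : (p : ℝ) ≤ (N : ℝ) ^ (1 / (r : ℝ))) : ¬ p ∣ q := by
  intro hd
  have h1 : p = q := (Nat.prime_dvd_prime_iff_eq hp hq).1 hd
  have hX1 : (1 : ℝ) ≤ N := by exact_mod_cast hN
  have hr1 : (1 : ℝ) ≤ r := by exact_mod_cast hr
  have h2 : (N : ℝ) ^ (1 / (r : ℝ)) ≤ N := by
    calc (N : ℝ) ^ (1 / (r : ℝ)) ≤ (N : ℝ) ^ (1 : ℝ) :=
          Real.rpow_le_rpow_of_exponent_le hX1 (by rw [div_le_one (by linarith)]; exact hr1)
      _ = N := Real.rpow_one _
  have h3 : (p : ℝ) ≤ N := hpN.trans h2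
  have h4 : p ≤ N := by exact_mod_cast h3
  omega

/-- integers up to `N ^ 3` without prime factors `≤ N ^ (1 / r)` have at most `3 r` prime factors -/
lemma few {N r m : ℕ} (hN : 2 ≤ N) (hr : 1 ≤ r) (hm : m ≠ 0) (hmX : m ≤ N ^ 3)
    (h : ∀ p : ℕ, p.Prime → (p : ℝ) ≤ (N : ℝ) ^ (1 / (r : ℝ)) → ¬ p ∣ m) :
    m.primeFactorsList.length ≤ 3 * r := by
  have hX1 : (1 : ℝ) < N := by exact_mod_cast (by omega : 1 < N)
  have hr1 : (0 : ℝ) < r := by exact_mod_cast (by omega : 0 < r)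
  refine Pool.Agent.Y879.GL.few_of_rough ((N : ℝ) ^ (1 / (r : ℝ))) (Real.one_lt_rpow hX1 (by positivity)) m
    (3 * r) hm ?_ (fun q hq hqm => ?_)
  · rw [← Real.rpow_natCast, ← Real.rpow_mul (by positivity)]
    have e : 1 / (r : ℝ) * ((3 * r : ℕ) : ℝ) = ((3 : ℕ) : ℝ) := by
      push_cast
      field_simp
    rw [e, Real.rpow_natCast]
    exact_mod_cast hmX
  · by_contra hcon
    push Not at hcon
    exact h q hq hcon hqm

open Classical in
/-- **The gap laws for almost prime pairs between consecutive squares.** Let `0 < θ < 1`, `ε > 0`, `l₀`, `x₀`.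
There is `r₀` such that for all `r ≥ r₀` and ALL large `N`:
(1) if `2 ≤ k ≤ 2 N` and `N ^ 2 + k + 1`, `(N + 1) ^ 2 - k` are both prime, `k` is good; and for every good
`2 ≤ k ≤ 2 N` both `N ^ 2 + k + 1` and `(N + 1) ^ 2 - k` have at most `3 r` prime factors;
(2) the number of the good `2 ≤ k ≤ 2 N` is `(2 N - 1) V`, up to `ε (2 N - 1) V`;
(3) in every interval `(Z, Z + Y]` with `Y ≥ N ^ θ`, for instance in all parts of that length of `[2, 2 N]`,
the number `Far` of the good `k`, with fewer than `l` good integers in `[k - T, k)`, is the value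
`Y V ∑_{j < l} exp (- T V) (T V) ^ j / j!` for the Poisson process of density `V`, up to `ε Y V`, for all
`l ≤ l₀` and all `T`, and for all `l` and all `T ≤ x₀ / V`. -/
theorem result (θ : ℝ) (hθ : 0 < θ) (hθ1 : θ < 1) (l₀ : ℕ) (x₀ ε : ℝ) (hε : 0 < ε) :
    ∃ r₀ : ℕ, ∀ r : ℕ, r₀ ≤ r → ∀ᶠ N : ℕ in atTop,
      ((∀ k : ℕ, 2 ≤ k → k ≤ 2 * N → (N ^ 2 + k + 1).Prime → ((N + 1) ^ 2 - k).Prime → Good N r k) ∧
        ∀ k : ℕ, 2 ≤ k → k ≤ 2 * N → Good N r k → (N ^ 2 + k + 1).primeFactorsList.length ≤ 3 * r ∧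
          ((N + 1) ^ 2 - k).primeFactorsList.length ≤ 3 * r) ∧
      |(({k ∈ Icc 2 (2 * N) | Good N r k}.card : ℕ) : ℝ) - (2 * N - 1 : ℕ) * V N r| ≤
        ε * ((2 * N - 1 : ℕ) * V N r) ∧
      ∀ Z Y : ℕ, (N : ℝ) ^ θ ≤ Y → ∀ l T : ℕ, (l ≤ l₀ ∨ T * V N r ≤ x₀) →
        |(Far N r l T Z Y : ℝ) - Y * V N r *
          ∑ j ∈ range l, Real.exp (-(T * V N r)) * (T * V N r) ^ j / j.factorial| ≤
          ε * (Y * V N r) := by
  obtain ⟨r₀, h⟩ := gaps 2 1 (3 + 1) 1 θ (by norm_num) one_pos hθ (max l₀ 1) x₀ ε hε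
  refine ⟨max r₀ 2, fun r hr => ?_⟩
  have hr1 : 1 ≤ r := by omega
  obtain ⟨M, hM, hV⟩ := pair_V 3 (by norm_num) 1 r ((le_max_right _ _).trans hr)
  have hpow : ∀ᶠ X : ℕ in atTop, (X : ℝ) ^ θ ≤ ((2 * X - 1 : ℕ) : ℝ) := by
    filter_upwards [eventually_ge_atTop 1] with X hX
    have hX1 : (1 : ℝ) ≤ X := by exact_mod_cast hX
    calc (X : ℝ) ^ θ ≤ (X : ℝ) ^ (1 : ℝ) := Real.rpow_le_rpow_of_exponent_le hX1 hθ1.le
      _ = (X : ℝ) := Real.rpow_one _
      _ ≤ ((2 * X - 1 : ℕ) : ℝ) := by exact_mod_cast (by omega : X ≤ 2 * X - 1)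
  filter_upwards [h r ((le_max_left _ _).trans hr) M, hV, pair_sys 3 (by norm_num) 1, hpow,
    eventually_ge_atTop 6] with N h1 h2 h3 h4 hN
  have hN6 : (6 : ℝ) ≤ N := by exact_mod_cast hN
  have hf : |(((2 * N ^ 2 + 2 * N + 2 : ℕ) : ℤ) : ℝ)| = 2 * (N : ℝ) ^ 2 + 2 * N + 2 := by
    rw [Int.cast_natCast, abs_of_nonneg (Nat.cast_nonneg _)]
    push_cast
    ring
  have hN3 : (N : ℝ) ^ (3 : ℝ) = (N : ℝ) ^ 3 := by
    rw [← Real.rpow_natCast]
    norm_num
  have hok : PairOK N 3 1 (-1) ((2 * N ^ 2 + 2 * N + 2 : ℕ) : ℤ) 1 (N ^ 2 + 1) :=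
    { he := by norm_num
      hf := by
        have : Even (2 * N ^ 2 + 2 * N + 2) := ⟨N ^ 2 + N + 1, by ring⟩
        exact_mod_cast this
      hf0 := by
        have : 2 * N ^ 2 + 2 * N + 2 ≠ 0 := by omega
        exact_mod_cast this
      hfX := by
        rw [hf, hN3]
        nlinarith [sq_nonneg (N : ℝ)]
      hq := le_rfl
      hqX := by
        rw [hN3, Nat.cast_one]
        nlinarith [sq_nonneg (N : ℝ)]
      haX := by
        rw [hN3]
        push_cast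
        nlinarith [sq_nonneg (N : ℝ)]
      hqa := Nat.coprime_one_left _
      hqf := by rw [Nat.cast_one]; exact isCoprime_one_left }
  have hsys : System 1 ((N : ℝ) ^ ((3 : ℝ) + 1)) ((N : ℝ) ^ (1 : ℝ)) (sy N) :=
    h3 (-1) _ 1 (N ^ 2 + 1) hok (by
      rw [hf, Real.rpow_one, Nat.cast_one]
      nlinarith [sq_nonneg (N : ℝ)])
  have key := h1 (sy N) hsys (h2 (-1) _ 1 (N ^ 2 + 1) hok)
  have hN23 : (N + 1) ^ 2 ≤ N ^ 3 := by nlinarith [mul_pos (show 0 < N by omega) (show 0 < N by omega)]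
  refine ⟨⟨fun k hk hkN hA hB p hp hpN => ⟨?_, ?_⟩, fun k hk hkN hg => ⟨?_, ?_⟩⟩, ?_, ?_⟩
  · intro hd
    have e1 : (N : ℤ) ^ 2 + k + 1 = ((N ^ 2 + k + 1 : ℕ) : ℤ) := by push_cast; ring
    rw [e1, Int.natCast_dvd_natCast] at hd
    exact prime_ok (by omega) hr1 hA (by nlinarith) hp hpN hd
  · intro hd
    have hle : k ≤ (N + 1) ^ 2 := by nlinarith
    have e1 : ((N : ℤ) + 1) ^ 2 - k = (((N + 1) ^ 2 - k : ℕ) : ℤ) := by
      rw [Nat.cast_sub hle]
      push_cast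
      ring
    rw [e1, Int.natCast_dvd_natCast] at hd
    have hlt : N < (N + 1) ^ 2 - k := by
      have : N + k < (N + 1) ^ 2 := by nlinarith
      omega
    exact prime_ok (by omega) hr1 hB hlt hp hpN hd
  · refine few (N := N) (by omega) hr1 (by omega) ?_ (fun p hp hpN hd => ?_)
    · have : N ^ 2 + k + 1 ≤ (N + 1) ^ 2 := by nlinarith
      omega
    · apply (hg p hp hpN).1
      have e1 : (N : ℤ) ^ 2 + k + 1 = ((N ^ 2 + k + 1 : ℕ) : ℤ) := by push_cast; ring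
      rw [e1, Int.natCast_dvd_natCast]
      exact hd
  · have hle : k < (N + 1) ^ 2 := by nlinarith
    refine few (N := N) (by omega) hr1 (by omega) (by omega) (fun p hp hpN hd => ?_)
    apply (hg p hp hpN).2
    have e1 : ((N : ℤ) + 1) ^ 2 - k = (((N + 1) ^ 2 - k : ℕ) : ℤ) := by
      rw [Nat.cast_sub hle.le]
      push_cast
      ring
    rw [e1, Int.natCast_dvd_natCast]
    exact hd
  · have h5 := key 1 (2 * N - 1) h4 1 0 (Or.inl (le_max_right _ _))
    rw [← V_eq, ← Far_eq] at h5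
    have e1 : Far N r 1 0 1 (2 * N - 1) = {k ∈ Icc 2 (2 * N) | Good N r k}.card := by
      unfold Far
      have e2 : Ioc 1 (1 + (2 * N - 1)) = Icc 2 (2 * N) := by
        ext m
        simp only [mem_Ioc, mem_Icc]
        omega
      rw [e2]
      congr 1
      apply filter_congr
      intro b _
      simp
    rw [e1] at h5
    simpa using h5
  · intro Z Y hY l T hT
    rw [V_eq] at hT ⊢
    rw [Far_eq]
    exact key Z Y hY l T (hT.imp (fun h => h.trans (le_max_left _ _)) id)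

end Pool.Agent.Results.MP_e94e4b_nt.GapLaws
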