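import Mathlib
import Pool.Agent.R960.Fam.Lg

set_option autoImplicit false

/-!
# Pairs with a fixed sum between consecutive squares, in random models of the primes

The integers are decided one after the other; no independence is assumed.  Fix a finite set `Q` of
primes; multiples of the primes of `Q` are never chosen and the other integers `n + 1` are chosen with
conditional probability `(1 + o(1)) ∏_{p ∈ Q} (1 - 1/p)⁻¹ / log n`.  Almost surely, uniformly in all windows
`(y, y + h]` of `[0, 2 N]` of length `h ≥ (log N)⁶`, the number of `k` in the window such that `N² + k + 1`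
and `(N + 1)² - k` are both chosen is `(𝔖(N) + o(1)) h / (2 log N)²`, where `𝔖(N)` is the product of the
factors `(1 - ν/p) / (1 - 1/p)²`, `ν = 1` if `p` divides `2 (N² + N + 1)` and `2` otherwise.
-/

open MeasureTheory Filter Polynomial
open scoped Topology

namespace Pool.Agent.Results.MP_e94e4b_nt.PairsInSievedModels

/-- the conditional probability that `n + 1` is chosen, given the information up to `n` -/
noncomputable def density {Ω : Type} {mΩ : MeasurableSpace Ω} (μ : Measure Ω) (ℱ : Filtration ℕ mΩ)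
    (A : ℕ → Set Ω) (n : ℕ) : Ω → ℝ := μ[(A (n + 1)).indicator (fun _ => (1 : ℝ)) | ℱ n]

/-- the number of `k` with `y < k ≤ y + h` such that `N² + k + 1` and `(N + 1)² - k` are both in `S` -/
noncomputable def pairCount (S : Set ℕ) (N y h : ℕ) : ℕ :=
  {k : ℕ | (y < k ∧ k ≤ y + h) ∧ N ^ 2 + k + 1 ∈ S ∧ (N + 1) ^ 2 - k ∈ S}.ncard

/-- the factors of the primes of `Q` for the sum `2 N² + 2 N + 2` -/
noncomputable def pairFactor (Q : Finset ℕ) (N : ℕ) : ℝ :=
  ∏ p ∈ Q, (1 - (if p ∣ 2 * N ^ 2 + 2 * N + 2 then 1 else 2) / (p : ℝ)) / (1 - 1 / (p : ℝ)) ^ 2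

/-- the two forms -/
noncomputable def PS (N : ℕ) : Finset ℤ[X] := {X + C ((N : ℤ) ^ 2 + 1), C (((N : ℤ) + 1) ^ 2) - X}

lemma PS_ne (N : ℕ) : (X + C ((N : ℤ) ^ 2 + 1) : ℤ[X]) ≠ C (((N : ℤ) + 1) ^ 2) - X := by
  intro h
  have h1 := congr_arg (fun f => Polynomial.eval 1 f - Polynomial.eval 0 f) h
  simp at h1

lemma PS_card (N : ℕ) : (PS N).card = 2 := by
  unfold PS
  exact Finset.card_pair (PS_ne N)

lemma omega_PS (N : ℕ) {p : ℕ} (hp : p.Prime) :
    Pool.Agent.R528.RM.omegaF (PS N) p = if p ∣ 2 * N ^ 2 + 2 * N + 2 then 1 else 2 := by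
  unfold Pool.Agent.R528.RM.omegaF PS
  simp_rw [Finset.prod_pair (PS_ne N)]
  simp only [eval_add, eval_X, eval_C, eval_sub]
  rw [Pool.Agent.R960.Fam.pair_res _ _ hp]
  have h1 : ((p : ℤ) ∣ (N : ℤ) ^ 2 + 1 + ((N : ℤ) + 1) ^ 2) ↔ p ∣ 2 * N ^ 2 + 2 * N + 2 := by
    rw [← Int.natCast_dvd_natCast]
    push_cast
    congr! 1
    ring
  simp only [h1]

lemma sg_PS (Q : Finset ℕ) (hQ : ∀ p ∈ Q, p.Prime) (N : ℕ) : Pool.Agent.R960.Fam.sg Q 2 (PS N) = pairFactor Q N := by
  unfold Pool.Agent.R960.Fam.sg pairFactor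
  refine Finset.prod_congr rfl fun p hp => ?_
  rw [omega_PS N (hQ p hp)]
  split_ifs <;> norm_num

lemma factor_lower (Q : Finset ℕ) (hQ : ∀ p ∈ Q, p.Prime) :
    ∃ c : ℝ, 0 < c ∧ ∀ N, c ≤ pairFactor Q N := by
  have hp0 : ∀ p ∈ Q, (0 : ℝ) < p ∧ 0 < 1 - 1 / (p : ℝ) := by
    intro p hp
    have h2 : (2 : ℝ) ≤ p := by exact_mod_cast (hQ p hp).two_le
    refine ⟨by linarith, ?_⟩
    rw [sub_pos, div_lt_one (by linarith)]
    linarith
  refine ⟨∏ p ∈ Q, (if p = 2 then 1 / 2 else 1 - 2 / (p : ℝ)) / (1 - 1 / (p : ℝ)) ^ 2, ?_, ?_⟩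
  · refine Finset.prod_pos fun p hp => div_pos ?_ (pow_pos (hp0 p hp).2 2)
    split_ifs with h
    · norm_num
    · have h3 : 3 ≤ p := by
        have := (hQ p hp).two_le
        omega
      have h4 : (3 : ℝ) ≤ p := by exact_mod_cast h3
      rw [sub_pos, div_lt_one (by linarith)]
      linarith
  · intro N
    unfold pairFactor
    refine Finset.prod_le_prod (fun p hp => ?_) fun p hp => ?_
    · refine div_nonneg ?_ (sq_nonneg _)
      split_ifs with h
      · norm_num
      · have h3 : 3 ≤ p := by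
          have := (hQ p hp).two_le
          omega
        have h4 : (3 : ℝ) ≤ p := by exact_mod_cast h3
        rw [sub_nonneg, div_le_one (by linarith)]
        linarith
    · refine div_le_div_of_nonneg_right ?_ (sq_nonneg _)
      have h5 := (hp0 p hp).1
      by_cases h : p = 2
      · have h6 : p ∣ 2 * N ^ 2 + 2 * N + 2 := by
          rw [h]
          exact ⟨N ^ 2 + N + 1, by ring⟩
        rw [if_pos h, if_pos h6, h]
        norm_num
      · rw [if_neg h]
        split_ifs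
        · have : 1 / (p : ℝ) ≤ 2 / p := div_le_div_of_nonneg_right (by norm_num) h5.le
          linarith
        · exact le_rfl

lemma cnt_eq (S : Set ℕ) {N y h : ℕ} (hyh : y + h ≤ 2 * N) :
    Pool.Agent.R960.Fam.cntP S (PS N) y h = pairCount S N y h := by
  unfold Pool.Agent.R960.Fam.cntP pairCount PS
  congr 1
  ext k
  simp only [Finset.mem_insert, Finset.mem_singleton, forall_eq_or_imp, forall_eq, eval_add, eval_X, eval_C, eval_sub,
    Set.mem_ofPred_eq]
  refine and_congr_right fun hk => ?_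
  have h1 : ((k : ℤ) + ((N : ℤ) ^ 2 + 1)).toNat = N ^ 2 + k + 1 := by
    have : ((k : ℤ) + ((N : ℤ) ^ 2 + 1)) = ((N ^ 2 + k + 1 : ℕ) : ℤ) := by
      push_cast
      ring
    rw [this, Int.toNat_natCast]
  have h2 : (((N : ℤ) + 1) ^ 2 - (k : ℤ)).toNat = (N + 1) ^ 2 - k := by
    have h3 : k ≤ (N + 1) ^ 2 := by nlinarith
    have : (((N : ℤ) + 1) ^ 2 - (k : ℤ)) = (((N + 1) ^ 2 - k : ℕ) : ℤ) := by
      rw [Nat.cast_sub h3]
      push_cast
      ring
    rw [this, Int.toNat_natCast]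
  rw [h1, h2]

end Pool.Agent.Results.MP_e94e4b_nt.PairsInSievedModels

open Pool.Agent.Results.MP_e94e4b_nt.PairsInSievedModels

theorem Pool.Agent.Results.MP_e94e4b_nt.PairsInSievedModels.result
    {Ω : Type} [mΩ : MeasurableSpace Ω] (μ : Measure Ω) [IsProbabilityMeasure μ]
    (ℱ : Filtration ℕ mΩ) (A : ℕ → Set Ω) (hA : ∀ n, MeasurableSet[ℱ n] (A n))
    (Q : Finset ℕ) (hQ : ∀ p ∈ Q, p.Prime) (hcop : ∀ n, (∃ p ∈ Q, p ∣ n) → A n = ∅)
    (hd : ∀ᵐ ω ∂μ, Tendsto (fun n : ℕ => density μ ℱ A n ω * Real.log n)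
        (atTop ⊓ 𝓟 {n : ℕ | ∀ p ∈ Q, ¬ p ∣ n + 1}) (𝓝 (∏ p ∈ Q, (1 - 1 / (p : ℝ))⁻¹))) :
    (∃ c : ℝ, 0 < c ∧ ∀ N, c ≤ pairFactor Q N) ∧
    ∀ᵐ ω ∂μ,
      (∀ ε : ℝ, 0 < ε → ∀ᶠ N : ℕ in atTop, ∀ y h : ℕ, y + h ≤ 2 * N → Real.log N ^ 6 ≤ h →
        |(pairCount {a | ω ∈ A a} N y h : ℝ) * (2 * Real.log N) ^ 2 / h - pairFactor Q N| ≤ ε) ∧
      Tendsto (fun N : ℕ => (pairCount {a | ω ∈ A a} N 1 (2 * N - 1) : ℝ) * (2 * Real.log N) ^ 2 / (2 * N - 1) -
        pairFactor Q N) atTop (𝓝 0) ∧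
      ∀ᶠ N : ℕ in atTop, ∃ k : ℕ, 2 ≤ k ∧ k ≤ 2 * N ∧ (k : ℝ) ≤ Real.log N ^ 6 + 3 ∧
        ω ∈ A (N ^ 2 + k + 1) ∧ ω ∈ A ((N + 1) ^ 2 - k) := by
  classical
  obtain ⟨c, hc0, hc⟩ := factor_lower Q hQ
  refine ⟨⟨c, hc0, hc⟩, ?_⟩
  set Φ : ℕ → Finset (ℕ × ℕ × ℕ) := fun N => {N} ×ˢ ((Finset.range (2 * N + 1) ×ˢ Finset.range (2 * N + 1)).filter
    fun yh : ℕ × ℕ => yh.1 + yh.2 ≤ 2 * N ∧ Real.log N ^ 6 ≤ yh.2) with hΦ
  have hmem : ∀ N, ∀ a ∈ Φ N, a.1 = N ∧ a.2.1 + a.2.2 ≤ 2 * N ∧ Real.log N ^ 6 ≤ (a.2.2 : ℝ) := by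
    intro x a ha
    obtain ⟨h1, h2⟩ := Finset.mem_product.1 ha
    obtain ⟨h3, h4⟩ := Finset.mem_filter.1 h2
    exact ⟨Finset.mem_singleton.1 h1, h4⟩
  have c1 : ∀ᶠ N : ℕ in atTop, (Φ N).card ≤ N ^ 3 := by
    filter_upwards [eventually_ge_atTop 6] with x hx
    have h1 : (Φ x).card ≤ (2 * x + 1) * (2 * x + 1) := by
      simp only [hΦ, Finset.card_product, Finset.card_singleton, one_mul]
      refine (Finset.card_filter_le _ _).trans ?_
      rw [Finset.card_product, Finset.card_range]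
    refine h1.trans ?_
    nlinarith [Nat.mul_le_mul hx hx, mul_pos (show 0 < x by omega) (show 0 < x by omega)]
  have hwin : ∀ N, ∀ a ∈ Φ N, ∀ i ∈ Pool.Agent.R960.Fam.win a.2.1 a.2.2 {N}, i ≤ 2 * N ∧ i ≠ N := by
    intro N a ha i hi
    obtain ⟨h1, h2, h3⟩ := hmem N a ha
    obtain ⟨h4, h5⟩ := Finset.mem_sdiff.1 hi
    rw [Finset.mem_Ioc] at h4
    rw [Finset.mem_singleton] at h5
    exact ⟨by omega, h5⟩
  have main := Pool.Agent.R960.Fam.poly_win' (μ := μ) hA Q hQ hcop hd 2 2 3 1 (by norm_num) Φ c1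
    (fun a => PS a.1) (fun a => a.2.1) (fun a => a.2.2) (fun a => {a.1}) (fun a => (2 * Real.log a.1) ^ 2) id tendsto_id
    (by
      filter_upwards with N a _
      exact ⟨PS_card _, by simp⟩)
    (by
      filter_upwards [eventually_ge_atTop 1] with N hN a ha i hi
      obtain ⟨h1, h2, h3⟩ := hmem N a ha
      rw [h1] at hi ⊢
      obtain ⟨h4, h5⟩ := hwin N a ha i hi
      have hi2 : (i : ℤ) ≤ 2 * N := by exact_mod_cast h4
      have hN' : (1 : ℤ) ≤ N := by exact_mod_cast hN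
      have hi0 : (0 : ℤ) ≤ i := by positivity
      have hi5 : (i : ℤ) ≠ N := by exact_mod_cast h5
      refine ⟨?_, ?_⟩
      · intro f hf
        simp only [PS, Finset.mem_insert, Finset.mem_singleton] at hf
        simp only [id]
        rcases hf with rfl | rfl
        · simp only [eval_add, eval_X, eval_C]
          nlinarith
        · simp only [eval_sub, eval_X, eval_C]
          nlinarith
      · intro f hf g hg hfg
        simp only [PS, Finset.coe_insert, Finset.coe_singleton, Set.mem_insert_iff, Set.mem_singleton_iff] at hf hg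
        rcases hf with rfl | rfl <;> rcases hg with rfl | rfl
        · rfl
        · exfalso
          simp only [eval_add, eval_sub, eval_X, eval_C] at hfg
          apply hi5
          nlinarith
        · exfalso
          simp only [eval_add, eval_sub, eval_X, eval_C] at hfg
          apply hi5
          nlinarith
        · rfl)
    (by
      filter_upwards [eventually_ge_atTop 1] with N hN a ha m
      have h0 := Pool.Agent.R960.Fam.mult_inj (PS a.1) (Pool.Agent.R960.Fam.win a.2.1 a.2.2 {a.1}) (by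
        obtain ⟨h1, h2, h3⟩ := hmem N a ha
        rw [h1]
        intro f hf i hi j hj hij
        obtain ⟨h4, h5⟩ := hwin N a ha i hi
        obtain ⟨h6, h7⟩ := hwin N a ha j hj
        have hi2 : (i : ℤ) ≤ 2 * N := by exact_mod_cast h4
        have hj2 : (j : ℤ) ≤ 2 * N := by exact_mod_cast h6
        have hN' : (1 : ℤ) ≤ N := by exact_mod_cast hN
        have hi0 : (0 : ℤ) ≤ i := by positivity
        have hj0 : (0 : ℤ) ≤ j := by positivity
        simp only [PS, Finset.mem_insert, Finset.mem_singleton] at hf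
        rcases hf with rfl | rfl
        · simp only [eval_add, eval_X, eval_C] at hij
          have e1 : (0 : ℤ) ≤ i + ((N : ℤ) ^ 2 + 1) := by positivity
          have e2 : (0 : ℤ) ≤ j + ((N : ℤ) ^ 2 + 1) := by positivity
          have e3 := congr_arg (fun n : ℕ => (n : ℤ)) hij
          simp only [Int.toNat_of_nonneg e1, Int.toNat_of_nonneg e2] at e3
          omega
        · simp only [eval_sub, eval_X, eval_C] at hij
          have e1 : (0 : ℤ) ≤ ((N : ℤ) + 1) ^ 2 - i := by nlinarith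
          have e2 : (0 : ℤ) ≤ ((N : ℤ) + 1) ^ 2 - j := by nlinarith
          have e3 := congr_arg (fun n : ℕ => (n : ℤ)) hij
          simp only [Int.toNat_of_nonneg e1, Int.toNat_of_nonneg e2] at e3
          omega) m
      rw [PS_card] at h0
      exact h0)
    (by
      intro η hη
      have t1 := (Real.tendsto_log_atTop.comp tendsto_natCast_atTop_atTop).const_mul_atTop (show (0 : ℝ) < 2 by norm_num)
      have t2 : ∀ᶠ N : ℕ in atTop, (1 + Real.log 4 / (2 * Real.log N)) ^ 2 - 1 ≤ η :=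
        t1.eventually (Pool.Agent.R960.Fam.near_ev (Real.log 4) 2 hη)
      have t3 : ∀ᶠ N : ℕ in atTop, 0 < 2 * Real.log N := t1.eventually_gt_atTop 0
      filter_upwards [t2, t3, eventually_ge_atTop 1] with N hN1 hN2 hN a ha i hi
      obtain ⟨h1, h2, h3⟩ := hmem N a ha
      rw [h1] at hi ⊢
      obtain ⟨h4, h5⟩ := hwin N a ha i hi
      have hi2 : (i : ℤ) ≤ 2 * N := by exact_mod_cast h4
      have hN' : (1 : ℤ) ≤ N := by exact_mod_cast hN
      have hi0 : (0 : ℤ) ≤ i := by positivity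
      have hNr : (1 : ℝ) ≤ N := by exact_mod_cast hN
      have hb : ∀ f ∈ PS N, ((N : ℤ) ^ 2 ≤ f.eval (i : ℤ) ∧ f.eval (i : ℤ) ≤ 4 * (N : ℤ) ^ 2) := by
        intro f hf
        simp only [PS, Finset.mem_insert, Finset.mem_singleton] at hf
        rcases hf with rfl | rfl
        · simp only [eval_add, eval_X, eval_C]
          constructor <;> nlinarith
        · simp only [eval_sub, eval_X, eval_C]
          constructor <;> nlinarith
      have hb2 : ∀ f ∈ PS N, 2 * Real.log N ≤ Real.log ((f.eval (i : ℤ)).toNat : ℝ) ∧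
          Real.log ((f.eval (i : ℤ)).toNat : ℝ) ≤ 2 * Real.log N + Real.log 4 := by
        intro f hf
        obtain ⟨g1, g2⟩ := hb f hf
        have g3 : (((f.eval (i : ℤ)).toNat : ℕ) : ℤ) = f.eval (i : ℤ) := Int.toNat_of_nonneg (by nlinarith)
        have g4 : ((f.eval (i : ℤ)).toNat : ℝ) = ((f.eval (i : ℤ) : ℤ) : ℝ) := by exact_mod_cast congr_arg (Int.cast (R := ℝ)) g3
        have g5 : (N : ℝ) ^ 2 ≤ ((f.eval (i : ℤ)).toNat : ℝ) := by
          rw [g4]
          exact_mod_cast g1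
        have g6 : ((f.eval (i : ℤ)).toNat : ℝ) ≤ 4 * (N : ℝ) ^ 2 := by
          rw [g4]
          exact_mod_cast g2
        have g7 : 2 * Real.log (N : ℝ) = Real.log ((N : ℝ) ^ 2) := by
          rw [Real.log_pow]
          norm_num
        have g8 : (0 : ℝ) < (N : ℝ) ^ 2 := by positivity
        rw [g7]
        refine ⟨Real.log_le_log g8 g5, ?_⟩
        rw [← Real.log_mul g8.ne' (by norm_num)]
        exact Real.log_le_log (lt_of_lt_of_le g8 g5) (by linarith)
      have h6 := Pool.Agent.R960.Fam.prod_near (PS N) (fun f => Real.log ((f.eval (i : ℤ)).toNat : ℝ))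
        (fun _ => 2 * Real.log N) (L := 2 * Real.log N) (c := Real.log 4) hN2 (Real.log_nonneg (by norm_num))
        (fun _ _ => le_rfl) (fun f hf => (hb2 f hf).1) (fun f hf => (hb2 f hf).2)
      rw [PS_card, Finset.prod_const, PS_card] at h6
      exact h6.trans (mul_le_mul_of_nonneg_right hN1 (by positivity)))
    (by
      have t1 : ∀ᶠ N : ℕ in atTop, (1 : ℝ) ≤ Real.log N :=
        (Real.tendsto_log_atTop.comp tendsto_natCast_atTop_atTop).eventually_ge_atTop _
      filter_upwards [t1] with N hN a ha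
      obtain ⟨h1, h2, h3⟩ := hmem N a ha
      rw [h1]
      exact one_le_pow₀ (by linarith))
    (by
      intro K hK
      have t1 : ∀ᶠ N : ℕ in atTop, 16 * K ≤ Real.log N :=
        (Real.tendsto_log_atTop.comp tendsto_natCast_atTop_atTop).eventually_ge_atTop _
      filter_upwards [t1] with N hN a ha
      obtain ⟨h1, h2, h3⟩ := hmem N a ha
      rw [h1]
      have h9 : 0 ≤ Real.log (N : ℝ) := Real.log_natCast_nonneg N
      refine le_trans ?_ h3
      calc K * (((2 * Real.log N) ^ 2) ^ 2 * Real.log N) = (16 * K) * Real.log N ^ 5 := by ring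
        _ ≤ Real.log N * Real.log N ^ 5 := mul_le_mul_of_nonneg_right hN (by positivity)
        _ = Real.log N ^ 6 := by ring)
  filter_upwards [main] with ω hω
  have L1 : ∀ ε : ℝ, 0 < ε → ∀ᶠ N : ℕ in atTop, ∀ y h : ℕ, y + h ≤ 2 * N → Real.log N ^ 6 ≤ h →
      |(pairCount {a | ω ∈ A a} N y h : ℝ) * (2 * Real.log N) ^ 2 / h - pairFactor Q N| ≤ ε := by
    intro ε hε
    filter_upwards [hω ε hε] with N hN y h hyh hh
    have h1 := hN (N, y, h) (by
      simp only [hΦ, Finset.mem_product, Finset.mem_singleton, Finset.mem_filter, Finset.mem_range, true_and]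
      exact ⟨⟨by omega, by omega⟩, hyh, hh⟩)
    simp only [sg_PS Q hQ, cnt_eq _ hyh] at h1
    exact h1
  have t2 : ∀ᶠ N : ℕ in atTop, Real.log N ^ 6 + 2 ≤ N := by
    have h0 : Tendsto (fun x : ℝ => Real.log x ^ (6 : ℝ) / x ^ (1 : ℝ)) atTop (𝓝 0) :=
      (isLittleO_log_rpow_rpow_atTop (6 : ℝ) one_pos).tendsto_div_nhds_zero
    have h1 := h0.comp tendsto_natCast_atTop_atTop
    filter_upwards [h1.eventually_le_const (show (0 : ℝ) < 1 / 2 by norm_num), eventually_ge_atTop 4] with N hN hN4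
    have hN0 : (4 : ℝ) ≤ N := by exact_mod_cast hN4
    simp only [Function.comp_apply, Real.rpow_one] at hN
    rw [div_le_iff₀ (by linarith)] at hN
    have h3 : Real.log (N : ℝ) ^ (6 : ℝ) = Real.log N ^ 6 := by
      rw [← Real.rpow_natCast]
      norm_num
    rw [h3] at hN
    linarith
  refine ⟨L1, ?_, ?_⟩
  · rw [Metric.tendsto_atTop']
    intro ε hε
    obtain ⟨N₀, hN₀⟩ := eventually_atTop.1 ((L1 (ε / 2) (by positivity)).and (t2.and (eventually_ge_atTop 1)))
    refine ⟨N₀, fun N hN => ?_⟩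
    obtain ⟨h1, h2, h3⟩ := hN₀ N hN.le
    have e1 : ((2 * N - 1 : ℕ) : ℝ) = 2 * N - 1 := by
      rw [Nat.cast_sub (by omega)]
      push_cast
      ring
    have h4 := h1 1 (2 * N - 1) (by omega) (by
      rw [e1]
      have : (1 : ℝ) ≤ N := by exact_mod_cast h3
      linarith)
    rw [e1] at h4
    rw [Real.dist_eq, sub_zero]
    linarith
  · have t3 : ∀ᶠ N : ℕ in atTop, (1 : ℝ) ≤ Real.log N :=
      (Real.tendsto_log_atTop.comp tendsto_natCast_atTop_atTop).eventually_ge_atTop _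
    filter_upwards [L1 (c / 2) (by positivity), t2, t3] with N h1 h2 h3
    set h := ⌈Real.log (N : ℝ) ^ 6⌉₊ with hh
    have h4 : Real.log (N : ℝ) ^ 6 ≤ h := Nat.le_ceil _
    have h5 : (h : ℝ) < Real.log (N : ℝ) ^ 6 + 1 := Nat.ceil_lt_add_one (by positivity)
    have h6 : 1 + h ≤ 2 * N := by
      have : (1 : ℝ) + h ≤ 2 * N := by
        have : (0 : ℝ) ≤ N := by positivity
        linarith
      exact_mod_cast this
    have h7 := h1 1 h h6 h4
    have h8 : pairCount {a | ω ∈ A a} N 1 h ≠ 0 := by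
      intro h9
      rw [h9] at h7
      simp only [Nat.cast_zero, zero_mul, zero_div, zero_sub, abs_neg] at h7
      have h10 := hc N
      have h11 := le_abs_self (pairFactor Q N)
      linarith
    have h9 : {k : ℕ | (1 < k ∧ k ≤ 1 + h) ∧ N ^ 2 + k + 1 ∈ {a | ω ∈ A a} ∧ (N + 1) ^ 2 - k ∈ {a | ω ∈ A a}}.Nonempty := by
      by_contra hne
      rw [Set.not_nonempty_iff_eq_empty] at hne
      apply h8
      unfold pairCount
      rw [hne, Set.ncard_empty]
    obtain ⟨k, ⟨hk1, hk2⟩, hk3, hk4⟩ := h9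
    refine ⟨k, by omega, by omega, ?_, hk3, hk4⟩
    have : (k : ℝ) ≤ 1 + h := by exact_mod_cast hk2
    linarith
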