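import Mathlib
import Pool.Agent.R463.Pair
import Pool.Agent.Y879.GL.Pattern

set_option autoImplicit false

/-!
# Regular points of arbitrary sets of prime pairs with fixed sum between consecutive squares

Write `m = N ^ 2 + k + 1`, so that `(N + 1) ^ 2 - k = 2 N ^ 2 + 2 N + 2 - m`. For EVERY large `N` almost all
elements of EVERY set of `m` between the squares for which neither `m` nor its partner has small prime factors,
for instance of every set of `m` such that both are prime, see the set in all windows around them with the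
right order of magnitude, and at all scales with few exceptions with a constant density on both sides.
-/

namespace Pool.Agent.Results.MP_e94e4b_nt.RegularPoints

open Finset Filter
open Pool.Agent.R463.PS

/-- neither `m` nor `2 N ^ 2 + 2 N + 2 - m` has a prime factor `p ≤ (2 N) ^ (1 / r)` -/
def Good (N r m : ℕ) : Prop :=
  ∀ p : ℕ, p.Prime → (p : ℝ) ≤ ((2 * N : ℕ) : ℝ) ^ (1 / (r : ℝ)) →
    ¬ p ∣ m ∧ ¬ (p : ℤ) ∣ 2 * (N : ℤ) ^ 2 + 2 * N + 2 - m

/-- `1` for the prime factors of the sum `2 N ^ 2 + 2 N + 2`, `2` for the other primes -/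
def nu (N p : ℕ) : ℕ := if p ∣ 2 * N ^ 2 + 2 * N + 2 then 1 else 2

/-- the density: the product of `1 - nu(p) / p` over the primes `p ≤ (2 N) ^ (1 / r)` -/
noncomputable def V (N r : ℕ) : ℝ :=
  ∏ p ∈ (Icc 1 ⌊((2 * N : ℕ) : ℝ) ^ (1 / (r : ℝ))⌋₊).filter Nat.Prime, (1 - (nu N p : ℝ) / p)

/-- the pair as a system -/
noncomputable abbrev sy (N : ℕ) := Pool.Agent.Y879.GL.pf (-1) ((2 * N ^ 2 + 2 * N + 2 : ℕ) : ℤ) 1 0

lemma good_iff (N r m : ℕ) : Good N r m ↔ Sifted (sy N) (2 * N) r m := by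
  unfold sy
  rw [pair_sift]
  unfold Good
  have e1 : ((1 : ℕ) : ℤ) * m + ((0 : ℕ) : ℤ) = m := by
    push_cast
    ring
  have e2 : (-1 : ℤ) * (((1 : ℕ) : ℤ) * m + ((0 : ℕ) : ℤ)) + ((2 * N ^ 2 + 2 * N + 2 : ℕ) : ℤ) =
      2 * (N : ℤ) ^ 2 + 2 * N + 2 - m := by
    push_cast
    ring
  rw [e2, e1]
  simp only [Int.natCast_dvd_natCast]

lemma V_eq (N r : ℕ) : V N r = Pool.Agent.R463.PS.V (sy N) (2 * N) r := by
  unfold V Pool.Agent.R463.PS.V
  apply prod_congr rfl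
  intro p hp
  have hpp := (mem_filter.1 hp).2
  unfold sy
  rw [pair_om (-1) _ (by norm_num) 1 0 p hpp (Nat.coprime_one_left _)
    (by rw [Nat.cast_one]; exact isCoprime_one_left)]
  unfold nu
  simp only [Int.natCast_dvd_natCast]
  rw [if_neg (fun h => hpp.one_lt.ne' (Nat.dvd_one.1 h))]

lemma rpow_le_self {N r : ℕ} (hN : 1 ≤ N) (hr : 1 ≤ r) : ((2 * N : ℕ) : ℝ) ^ (1 / (r : ℝ)) ≤ (2 * N : ℕ) := by
  have hX1 : (1 : ℝ) ≤ ((2 * N : ℕ) : ℝ) := by exact_mod_cast (by omega : 1 ≤ 2 * N)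
  have hr1 : (1 : ℝ) ≤ r := by exact_mod_cast hr
  calc ((2 * N : ℕ) : ℝ) ^ (1 / (r : ℝ)) ≤ ((2 * N : ℕ) : ℝ) ^ (1 : ℝ) :=
        Real.rpow_le_rpow_of_exponent_le hX1 (by rw [div_le_one (by linarith)]; exact hr1)
    _ = (2 * N : ℕ) := Real.rpow_one _

/-- a prime `q > 2 N` has no prime factor `≤ (2 N) ^ (1 / r)` -/
lemma prime_ok {N r q p : ℕ} (hN : 1 ≤ N) (hr : 1 ≤ r) (hq : q.Prime) (hNq : 2 * N < q) (hp : p.Prime)
    (hpN : (p : ℝ) ≤ ((2 * N : ℕ) : ℝ) ^ (1 / (r : ℝ))) : ¬ p ∣ q := by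
  intro hd
  have h1 : p = q := (Nat.prime_dvd_prime_iff_eq hp hq).1 hd
  have h3 : (p : ℝ) ≤ (2 * N : ℕ) := hpN.trans (rpow_le_self hN hr)
  have h4 : p ≤ 2 * N := by exact_mod_cast h3
  omega

/-- integers up to `(2 N) ^ 3` without prime factors `≤ (2 N) ^ (1 / r)` have at most `3 r` prime factors -/
lemma few {N r m : ℕ} (hN : 1 ≤ N) (hr : 1 ≤ r) (hm : m ≠ 0) (hmX : m ≤ (2 * N) ^ 3)
    (h : ∀ p : ℕ, p.Prime → (p : ℝ) ≤ ((2 * N : ℕ) : ℝ) ^ (1 / (r : ℝ)) → ¬ p ∣ m) :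
    m.primeFactorsList.length ≤ 3 * r := by
  have hX1 : (1 : ℝ) < ((2 * N : ℕ) : ℝ) := by exact_mod_cast (by omega : 1 < 2 * N)
  have hr1 : (0 : ℝ) < r := by exact_mod_cast (by omega : 0 < r)
  refine Pool.Agent.Y879.GL.few_of_rough (((2 * N : ℕ) : ℝ) ^ (1 / (r : ℝ)))
    (Real.one_lt_rpow hX1 (by positivity)) m (3 * r) hm ?_ (fun q hq hqm => ?_)
  · rw [← Real.rpow_natCast, ← Real.rpow_mul (by positivity)]
    have e : 1 / (r : ℝ) * ((3 * r : ℕ) : ℝ) = ((3 : ℕ) : ℝ) := by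
      push_cast
      field_simp
    rw [e, Real.rpow_natCast]
    exact_mod_cast hmX
  · by_contra hcon
    push Not at hcon
    exact h q hq hcon hqm

open Classical in
/-- **Regular points of arbitrary sets of prime pairs between consecutive squares.**

`Regular S V c δ B Y m`: every interval `(m - s, m + t]`, `s, t ≤ Y`, with `c (s + t) V ≥ 1` contains
between `c (s + t) V` and `(s + t) V / c` elements of `S`, and for all scales `1 / V ≤ 2 ^ j ≤ Y` with at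
most `B` exceptions there is a density `c ≤ lam ≤ 1 / c` such that all intervals `(m - s, m + t]`,
`s, t ≤ 2 ^ j`, contain `lam (s + t) V` elements of `S`, up to `δ 2 ^ j V`.

There is `r₀` such that for all `r ≥ r₀` and `ε > 0` there is `c > 0`, and for all `δ > 0` there is `B`, such
that for ALL large `N`: (1) for `2 ≤ k ≤ 2 N` and `m = N ^ 2 + k + 1` (whose partner is
`2 N ^ 2 + 2 N + 2 - m = (N + 1) ^ 2 - k`): if both are prime, `m` is good, and if `m` is good both have at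
most `3 r` prime factors; (2) for EVERY set `S` of good integers: at most `ε (2 N - 1) V` elements of `S` of the
form `N ^ 2 + k + 1`, `2 ≤ k ≤ 2 N`, are not regular points of `S`, with `Y = 2 N - 1`. -/
theorem result : ∃ r₀ : ℕ, 2 ≤ r₀ ∧ ∀ r : ℕ, r₀ ≤ r → ∀ ε : ℝ, 0 < ε → ∃ c : ℝ, 0 < c ∧ ∀ δ : ℝ, 0 < δ →
    ∃ B : ℕ, ∀ᶠ N : ℕ in atTop,
      ((∀ k : ℕ, 2 ≤ k → k ≤ 2 * N → (N ^ 2 + k + 1).Prime → ((N + 1) ^ 2 - k).Prime →
          Good N r (N ^ 2 + k + 1)) ∧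
        ∀ k : ℕ, 2 ≤ k → k ≤ 2 * N → Good N r (N ^ 2 + k + 1) →
          (N ^ 2 + k + 1).primeFactorsList.length ≤ 3 * r ∧
          ((N + 1) ^ 2 - k).primeFactorsList.length ≤ 3 * r) ∧
      ∀ S : Set ℕ, (∀ m ∈ S, Good N r m) →
        (((Icc 2 (2 * N)).filter (fun k => N ^ 2 + k + 1 ∈ S ∧
          ¬ Regular S (V N r) c δ B (2 * N - 1) (N ^ 2 + k + 1))).card : ℝ) ≤
          ε * ((2 * N - 1 : ℕ) * V N r) := by
  obtain ⟨r₀, hr₀, h⟩ := regular 2 1 1 (3 + 1) 1 (1 / 2) (by norm_num) one_pos (by norm_num)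
  refine ⟨r₀, hr₀, fun r hr ε hε => ?_⟩
  have hr1 : 1 ≤ r := by omega
  obtain ⟨M, hM, hV⟩ := pair_V 3 (by norm_num) 1 r (hr₀.trans hr)
  obtain ⟨c, hc, h1⟩ := h r hr M hM ε hε
  refine ⟨c, hc, fun δ hδ => ?_⟩
  obtain ⟨B, h2⟩ := h1 δ hδ
  refine ⟨B, ?_⟩
  have h8 : Tendsto (fun k : ℕ => 2 * k) atTop atTop := tendsto_id.const_mul_atTop' (by norm_num)
  filter_upwards [h8.eventually h2, h8.eventually hV, h8.eventually (pair_sys0 3 (by norm_num) 1),
    eventually_ge_atTop 6] with N h1 h2 h3 hN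
  have hN6 : (6 : ℝ) ≤ N := by exact_mod_cast hN
  have hf : |(((2 * N ^ 2 + 2 * N + 2 : ℕ) : ℤ) : ℝ)| = 2 * (N : ℝ) ^ 2 + 2 * N + 2 := by
    rw [Int.cast_natCast, abs_of_nonneg (Nat.cast_nonneg _)]
    push_cast
    ring
  have hN3 : ((2 * N : ℕ) : ℝ) ^ (3 : ℝ) = 8 * (N : ℝ) ^ 3 := by
    have : (3 : ℝ) = ((3 : ℕ) : ℝ) := by norm_num
    rw [this, Real.rpow_natCast]
    push_cast
    ring
  have hok : PairOK (2 * N) 3 1 (-1) ((2 * N ^ 2 + 2 * N + 2 : ℕ) : ℤ) 1 0 :=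
    { he := by norm_num
      hf := by
        have : Even (2 * N ^ 2 + 2 * N + 2) := ⟨N ^ 2 + N + 1, by ring⟩
        exact_mod_cast this
      hf0 := by
        have : 2 * N ^ 2 + 2 * N + 2 ≠ 0 := by omega
        exact_mod_cast this
      hfX := by
        rw [hf, hN3]
        nlinarith [sq_nonneg (N : ℝ)]
      hq := le_rfl
      hqX := by
        rw [hN3, Nat.cast_one]
        nlinarith [sq_nonneg (N : ℝ)]
      haX := by
        rw [hN3, Nat.cast_zero]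
        positivity
      hqa := Nat.coprime_one_left _
      hqf := by rw [Nat.cast_one]; exact isCoprime_one_left }
  obtain ⟨h4, h5⟩ := h3 (-1) _ 1 0 hok
  have hN23 : (N + 1) ^ 2 ≤ (2 * N) ^ 3 := by
    calc (N + 1) ^ 2 ≤ (2 * N) ^ 2 := Nat.pow_le_pow_left (by omega) 2
      _ ≤ (2 * N) ^ 3 := Nat.pow_le_pow_right (by omega) (by norm_num)
  have hpart : ∀ k : ℕ, 2 * (N : ℤ) ^ 2 + 2 * N + 2 - ((N ^ 2 + k + 1 : ℕ) : ℤ) = ((N : ℤ) + 1) ^ 2 - k := by
    intro k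
    push_cast
    ring
  have hsub : ∀ k : ℕ, k ≤ 2 * N → ((N : ℤ) + 1) ^ 2 - k = (((N + 1) ^ 2 - k : ℕ) : ℤ) := by
    intro k hk
    have hle : k ≤ (N + 1) ^ 2 := by nlinarith
    rw [Nat.cast_sub hle]
    push_cast
    ring
  refine ⟨⟨fun k hk hkN hA hB p hp hpN => ⟨?_, ?_⟩, fun k hk hkN hg => ⟨?_, ?_⟩⟩, ?_⟩
  · exact prime_ok (by omega) hr1 hA (by nlinarith) hp hpN
  · intro hd
    rw [hpart, hsub k hkN, Int.natCast_dvd_natCast] at hd
    have hlt : 2 * N < (N + 1) ^ 2 - k := by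
      have : 2 * N + k < (N + 1) ^ 2 := by nlinarith
      omega
    exact prime_ok (by omega) hr1 hB hlt hp hpN hd
  · refine few (N := N) (by omega) hr1 (by omega) ?_ (fun p hp hpN hd => (hg p hp hpN).1 hd)
    have : N ^ 2 + k + 1 ≤ (N + 1) ^ 2 := by nlinarith
    omega
  · have hle : k < (N + 1) ^ 2 := by nlinarith
    refine few (N := N) (by omega) hr1 (by omega) (by omega) (fun p hp hpN hd => ?_)
    apply (hg p hp hpN).2
    rw [hpart, hsub k hkN, Int.natCast_dvd_natCast]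
    exact hd
  · intro S hS
    have hY : (((2 * N : ℕ) : ℝ)) ^ ((1 : ℝ) / 2) ≤ ((2 * N - 1 : ℕ) : ℝ) := by
      have h3 : ((2 * N : ℕ) : ℝ) ≤ ((2 * N - 1 : ℕ) : ℝ) ^ (2 : ℝ) := by
        rw [Real.rpow_two]
        have h4 : 2 * N ≤ (2 * N - 1) ^ 2 := by
          obtain ⟨j, rfl⟩ : ∃ j, N = j + 6 := ⟨N - 6, by omega⟩
          have e1 : 2 * (j + 6) - 1 = 2 * j + 11 := by omega
          rw [e1]
          nlinarith
        exact_mod_cast h4
      calc (((2 * N : ℕ) : ℝ)) ^ ((1 : ℝ) / 2) ≤ (((2 * N - 1 : ℕ) : ℝ) ^ (2 : ℝ)) ^ ((1 : ℝ) / 2) :=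
            Real.rpow_le_rpow (Nat.cast_nonneg _) h3 (by norm_num)
        _ = ((2 * N - 1 : ℕ) : ℝ) := by
            rw [← Real.rpow_mul (Nat.cast_nonneg _)]
            norm_num
    have h6 := h1 _ h4 _ (by simp) h5 (h2 (-1) _ 1 0 hok) (N ^ 2 + 2) (2 * N - 1) hY (by omega)
      (by nlinarith [Nat.sub_le (2 * N) 1]) S (fun n hn => (good_iff N r n).1 (hS n hn))
    rw [← V_eq] at h6
    refine le_trans ?_ h6
    rw [Nat.cast_le]
    refine card_le_card_of_injOn (fun k => N ^ 2 + k + 1) ?_ ?_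
    · intro k hk
      rw [mem_coe, mem_filter, mem_Icc] at hk
      rw [mem_coe, mem_filter, mem_Ioc]
      refine ⟨⟨?_, ?_⟩, hk.2.1, hk.2.2⟩
      · show N ^ 2 + 2 < N ^ 2 + k + 1
        omega
      · show N ^ 2 + k + 1 ≤ N ^ 2 + 2 + (2 * N - 1)
        omega
    · intro a _ b _ hab
      simpa using hab

end Pool.Agent.Results.MP_e94e4b_nt.RegularPoints
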